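import Pool.Agent.H29.BH.Targets1
import Pool.Agent.H23.BG.TargetsL
import Pool.Agent.H26.THC.SP
import Pool.Agent.H92.RC.ID

/-!
# (F6) the complete sums of the coefficients
-/

set_option autoImplicit false

open NumberField NumberField.InfinitePlace NumberField.Units
  NumberField.Units.dirichletUnitTheorem MeasureTheory Set Filter Complex
open scoped nonZeroDivisors ENNReal

namespace Pool.Agent.H86.BH

open Pool.Agent.H25.HK Pool.Agent.H23.LB Pool.Agent.H23.LC Pool.Agent.H29.DW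
open Pool.Agent.H28.RC (Rep ft idl T_ID)
open Pool.Agent.H29.TC (dvs cq LC Gn MC T_GX T_DF)
open Pool.Agent.H26.THC (cq_eq gn_unique)
open Pool.Agent.H23.BG (c4 al be ga Iso nrt c4M Ac L_SG)
open Pool.Agent.H29.BH

/-- membership in `j M` -/
private theorem mem_iff {K : Type} [Field K] [NumberField K] {M : FI K} (hM : M ≠ 0) {x : K}
    (hx : x ∈ M) (j : Ideal (𝓞 K)) : x ∈ (j : FI K) * M ↔ idl K M x ≤ j := by
  have hID : T_ID := Pool.Agent.H92.RC.pf_ID
  have h1 := (hID K M hM).1 x hx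
  rw [← FractionalIdeal.spanSingleton_le_iff_mem, ← h1]
  constructor
  · intro h
    have h2 := mul_le_mul_left h M⁻¹
    rw [mul_assoc, mul_assoc, mul_inv_cancel₀ hM, mul_one, mul_one] at h2
    exact (FractionalIdeal.coeIdeal_le_coeIdeal K).1 h2
  · intro h
    exact mul_le_mul_left ((FractionalIdeal.coeIdeal_le_coeIdeal K).2 h) M

/-- the common divisor of the modulus and of a point -/
private theorem sup_idl {K : Type} [Field K] [NumberField K] {f : Ideal (𝓞 K)} {M : FI K}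
    (hM : M ≠ 0) {x₀ : K} (hGn : Gn f M x₀) {x : K} (hx : x ∈ M) {c : 𝓞 K}
    (hc : x - (c : K) * x₀ ∈ (f : FI K) * M) : f ⊔ idl K M x = f ⊔ Ideal.span {c} := by
  have key : ∀ j : Ideal (𝓞 K), f ≤ j → (idl K M x ≤ j ↔ c ∈ j) := by
    intro j hj
    have h1 : (f : FI K) * M ≤ (j : FI K) * M :=
      mul_le_mul_left ((FractionalIdeal.coeIdeal_le_coeIdeal K).mpr hj) M
    rw [← mem_iff hM hx, ← hGn.iff c j hj]
    let S : Submodule (𝓞 K) K := ((j : FI K) * M : FI K)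
    constructor
    · intro h
      have h2 : (c : K) * x₀ = x - (x - (c : K) * x₀) := by ring
      rw [h2]
      exact S.sub_mem h (h1 hc)
    · intro h
      have h2 : x = (x - (c : K) * x₀) + (c : K) * x₀ := by ring
      rw [h2]
      exact S.add_mem (h1 hc) h
  apply le_antisymm
  · refine sup_le le_sup_left ?_
    rw [key _ le_sup_left]
    exact (le_sup_right : Ideal.span {c} ≤ _) (Ideal.mem_span_singleton_self _)
  · refine sup_le le_sup_left ?_
    rw [Ideal.span_singleton_le_iff_mem, ← key _ le_sup_left]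
    exact le_sup_right

/-- permutations of the four points -/
private theorem c4_swap {R : Type} [CommRing R] [Fintype R] (η : R → ℂ) (a : Fin 4 → R) :
    c4 η ![a 0, a 1, a 3, a 2] = c4 η a ∧ c4 η ![a 1, a 0, a 2, a 3] = c4 η a ∧
      c4 η ![a 1, a 0, a 3, a 2] = c4 η a := by
  unfold c4
  refine ⟨?_, ?_, ?_⟩
  · refine Finset.sum_congr rfl fun y _ => ?_
    show η (y + a 0) * η (y + a 1) * (starRingEnd ℂ) (η (y + a 3)) *
      (starRingEnd ℂ) (η (y + a 2)) = _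
    ring
  · refine Finset.sum_congr rfl fun y _ => ?_
    show η (y + a 1) * η (y + a 0) * (starRingEnd ℂ) (η (y + a 2)) *
      (starRingEnd ℂ) (η (y + a 3)) = _
    ring
  · refine Finset.sum_congr rfl fun y _ => ?_
    show η (y + a 1) * η (y + a 0) * (starRingEnd ℂ) (η (y + a 3)) *
      (starRingEnd ℂ) (η (y + a 2)) = _
    ring

private theorem map_vec {R S : Type} (φ : R → S) (a b c d : R) :
    (fun i => φ ((![a, b, c, d] : Fin 4 → R) i)) = ![φ a, φ b, φ c, φ d] := by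
  funext i
  fin_cases i <;> rfl

/-- the trivial modulus -/
private theorem top_case {K : Type} [Field K] [NumberField K] (χ : HG K (⊤ : Ideal (𝓞 K)))
    (hCG : U_CG) (hDF : T_DF) (M : FI K) (X : Finset K) (hM : M ≠ 0) (hX : Rep K ⊤ M X)
    (b : Fin 4 → K) (hb : ∀ i, b i ∈ M) :
    ‖c4M K X (cg χ M) b‖ ≤ 1 ∧ Nf K (⊤ : Ideal (𝓞 K)) = 1 ∧ (∀ x, wf K ⊤ M x = 1) ∧
      (1 : ℝ) ≤ ((dvs K (⊤ : Ideal (𝓞 K))).card : ℝ) := by
  have hbot : (⊤ : Ideal (𝓞 K)) ≠ ⊥ := top_ne_bot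
  have hN : Nf K (⊤ : Ideal (𝓞 K)) = 1 := by
    unfold Nf
    rw [Ideal.absNorm_top]
    norm_num
  refine ⟨?_, hN, ?_, ?_⟩
  · -- one representative
    have hcard : X.card ≤ 1 := by
      rw [Finset.card_le_one]
      intro r hr s hs
      have hrs : r - s ∈ ((⊤ : Ideal (𝓞 K)) : FI K) * M := by
        rw [FractionalIdeal.coeIdeal_top, one_mul]
        exact (M : Submodule (𝓞 K) K).sub_mem (hX.1 r hr) (hX.1 s hs)
      have hrr : r - r ∈ ((⊤ : Ideal (𝓞 K)) : FI K) * M := by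
        rw [sub_self]
        exact (((⊤ : Ideal (𝓞 K)) : FI K) * M : FI K).zero_mem
      obtain ⟨t, -, ht⟩ := hX.2 r (hX.1 r hr)
      rw [ht r ⟨hr, hrr⟩, ht s ⟨hs, hrs⟩]
    have hcg := (hCG K ⊤ χ M hbot hM).2.1
    have hterm : ∀ r ∈ X, ‖cg χ M (r + b 0) * cg χ M (r + b 1) *
        (starRingEnd ℂ) (cg χ M (r + b 2)) * (starRingEnd ℂ) (cg χ M (r + b 3))‖ ≤ 1 := by
      intro r hr
      have h1 : ∀ i, ‖cg χ M (r + b i)‖ ≤ 1 := fun i =>
        hcg _ ((M : Submodule (𝓞 K) K).add_mem (hX.1 r hr) (hb i))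
      rw [norm_mul, norm_mul, norm_mul, RCLike.norm_conj, RCLike.norm_conj]
      exact mul_le_one₀ (mul_le_one₀ (mul_le_one₀ (h1 0) (norm_nonneg _) (h1 1))
        (norm_nonneg _) (h1 2)) (norm_nonneg _) (h1 3)
    unfold c4M
    refine (norm_sum_le _ _).trans ((Finset.sum_le_card_nsmul _ _ 1 hterm).trans ?_)
    rw [nsmul_eq_mul, mul_one]
    exact_mod_cast hcard
  · intro x
    unfold wf
    rw [top_sup_eq, hN]
  · have h1 : (⊤ : Ideal (𝓞 K)) ∈ dvs K ⊤ := (hDF K ⊤ hbot ⊤).2 le_rfl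
    have h2 : 1 ≤ (dvs K (⊤ : Ideal (𝓞 K))).card := Finset.card_pos.2 ⟨_, h1⟩
    exact_mod_cast h2

/-- the complete sums of the coefficients -/
theorem pf_F_6 (h3 : F_3) (h5 : F_5) (hSG : L_SG) (hGX : T_GX) (hDF : T_DF)
    (hCG : U_CG) : F_6 := by
  intro n K _ _ hn f hf χ hP M X hM hX b hb
  by_cases hft : f = ⊤
  · subst hft
    obtain ⟨t1, t2, t3, t4⟩ := top_case χ hCG hDF M X hM hX b hb
    simp only [t3, t2, top_sup_eq, mul_one]
    refine ⟨t1, ?_, fun _ => t1.trans t4, fun _ => t1.trans t4, fun _ => t1.trans t4,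
      fun _ => t1.trans t4⟩
    have h6 : ‖c4M K X (cg χ M) b‖ ^ 2 ≤ 1 := pow_le_one₀ (norm_nonneg _) t1
    refine h6.trans (one_le_pow₀ ?_)
    have h7 : (1 : ℝ) ≤ 4 ^ (n * (n + 1)) := one_le_pow₀ (by norm_num)
    have h8 : (1 : ℝ) ≤ ((dvs K (⊤ : Ideal (𝓞 K))).card : ℝ) ^ 2 := one_le_pow₀ t4
    exact one_le_mul_of_one_le_of_one_le h7 h8
  obtain ⟨x₀, hGn⟩ := hGX K f M hf hM
  obtain ⟨η, hLC, hη⟩ := hSG K f hf hft χ hP
  obtain ⟨c₀, hc₀, hc⟩ := hη M x₀ hM hGn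
  classical
  -- coordinates
  let g : K → 𝓞 K := fun x => if h : x ∈ M then (hGn.gen x h).choose else 0
  have hg : ∀ x ∈ M, x - (g x : K) * x₀ ∈ (f : FI K) * M := by
    intro x hx
    have h1 : g x = (hGn.gen x hx).choose := dif_pos hx
    rw [h1]
    exact (hGn.gen x hx).choose_spec.2
  set a : Fin 4 → 𝓞 K := fun i => g (b i) with hadef
  have ha : ∀ i, b i - (a i : K) * x₀ ∈ (f : FI K) * M := fun i => hg _ (hb i)
  have hab : ∀ i j, b i = b j → a i = a j := fun i j h => congrArg g h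
  have : Finite (𝓞 K ⧸ f) := Ideal.finiteQuotientOfFreeOfNeBot f hf
  have : Fintype (𝓞 K ⧸ f) := Fintype.ofFinite _
  let S : Submodule (𝓞 K) K := ((f : FI K) * M : FI K)
  have hS : ∀ x : K, x ∈ S ↔ x ∈ (f : FI K) * M := fun x => Iff.rfl
  have hgen : ∀ r ∈ X, ∃ c : 𝓞 K, r - (c : K) * x₀ ∈ (f : FI K) * M := fun r hr => by
    obtain ⟨c, -, hc'⟩ := hGn.gen r (hX.1 r hr)
    exact ⟨c, hc'⟩
  let ρ : K → 𝓞 K ⧸ f := fun r =>
    if h : ∃ c : 𝓞 K, r - (c : K) * x₀ ∈ (f : FI K) * M then Ideal.Quotient.mk f h.choose else 0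
  have hρ : ∀ (r : K) (c : 𝓞 K), r - (c : K) * x₀ ∈ (f : FI K) * M →
      ρ r = Ideal.Quotient.mk f c := by
    intro r c h
    have hex : ∃ c : 𝓞 K, r - (c : K) * x₀ ∈ (f : FI K) * M := ⟨c, h⟩
    change (if h : ∃ c : 𝓞 K, r - (c : K) * x₀ ∈ (f : FI K) * M then
      Ideal.Quotient.mk f h.choose else 0) = _
    rw [dif_pos hex, Ideal.Quotient.eq]
    exact gn_unique hGn hex.choose_spec h
  let G : 𝓞 K ⧸ f → ℂ := fun y => η (y + Ideal.Quotient.mk f (a 0)) *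
    η (y + Ideal.Quotient.mk f (a 1)) * (starRingEnd ℂ) (η (y + Ideal.Quotient.mk f (a 2))) *
    (starRingEnd ℂ) (η (y + Ideal.Quotient.mk f (a 3)))
  have hval : ∀ r ∈ X, ∀ i, cg χ M (r + b i) = c₀ * η (ρ r + Ideal.Quotient.mk f (a i)) := by
    intro r hr i
    obtain ⟨c, hc'⟩ := hgen r hr
    have hm : r + b i ∈ M := (M : Submodule (𝓞 K) K).add_mem (hX.1 r hr) (hb i)
    rw [hc _ hm, hρ r c hc', ← map_add]
    congr 1
    refine cq_eq f η hGn (c + a i) (r + b i) ?_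
    have h1 : ((c + a i : 𝓞 K) : K) = (c : K) + (a i : K) := map_add (algebraMap (𝓞 K) K) c (a i)
    have h2 : r + b i - ((c + a i : 𝓞 K) : K) * x₀ =
        (r - (c : K) * x₀) + (b i - (a i : K) * x₀) := by rw [h1]; ring
    rw [h2]
    exact S.add_mem hc' (ha i)
  have hsum : c4M K X (cg χ M) b = (c₀ * c₀ * (starRingEnd ℂ) c₀ * (starRingEnd ℂ) c₀) *
      c4 η (fun i => Ideal.Quotient.mk f (a i)) := by
    unfold c4M c4
    have h1 : ∑ r ∈ X, cg χ M (r + b 0) * cg χ M (r + b 1) *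
        (starRingEnd ℂ) (cg χ M (r + b 2)) * (starRingEnd ℂ) (cg χ M (r + b 3)) =
        ∑ r ∈ X, (c₀ * c₀ * (starRingEnd ℂ) c₀ * (starRingEnd ℂ) c₀) * G (ρ r) := by
      refine Finset.sum_congr rfl fun r hr => ?_
      rw [hval r hr 0, hval r hr 1, hval r hr 2, hval r hr 3, map_mul, map_mul]
      change _ = _ * (η (ρ r + Ideal.Quotient.mk f (a 0)) *
        η (ρ r + Ideal.Quotient.mk f (a 1)) *
        (starRingEnd ℂ) (η (ρ r + Ideal.Quotient.mk f (a 2))) *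
        (starRingEnd ℂ) (η (ρ r + Ideal.Quotient.mk f (a 3))))
      ring
    rw [h1, ← Finset.mul_sum]
    congr 1
    refine Finset.sum_bij (fun r _ => ρ r) (fun r _ => Finset.mem_univ _) ?_ ?_ ?_
    · intro r hr r' hr' h
      obtain ⟨c, hc'⟩ := hgen r hr
      obtain ⟨c', hc''⟩ := hgen r' hr'
      rw [hρ r c hc', hρ r' c' hc'', Ideal.Quotient.eq] at h
      have h2 : ((c - c' : 𝓞 K) : K) * x₀ ∈ (f : FI K) * M := (hGn.iff (c - c') f le_rfl).mpr h
      have h3 : ((c - c' : 𝓞 K) : K) = (c : K) - (c' : K) := map_sub (algebraMap (𝓞 K) K) c c'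
      have h4 : r - r' ∈ (f : FI K) * M := by
        have h5 : r - r' = (r - (c : K) * x₀) - (r' - (c' : K) * x₀) +
            ((c - c' : 𝓞 K) : K) * x₀ := by rw [h3]; ring
        rw [h5]
        exact S.add_mem (S.sub_mem hc' hc'') h2
      obtain ⟨s, -, hs⟩ := hX.2 r (hX.1 r hr)
      have h6 := hs r ⟨hr, by rw [sub_self]; exact S.zero_mem⟩
      have h7 := hs r' ⟨hr', h4⟩
      rw [h6, h7]
    · intro y _
      obtain ⟨c, rfl⟩ := Ideal.Quotient.mk_surjective y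
      have hcx : (c : K) * x₀ ∈ M := by
        have h3 : (c : K) * x₀ = c • x₀ := by rw [Algebra.smul_def]
        rw [h3]
        exact (M : Submodule (𝓞 K) K).smul_mem c hGn.mem
      obtain ⟨r, ⟨hr, hr'⟩, -⟩ := hX.2 _ hcx
      refine ⟨r, hr, hρ r c ?_⟩
      have h3 : r - (c : K) * x₀ = -((c : K) * x₀ - r) := by ring
      rw [h3]
      exact S.neg_mem hr'
    · intro r _
      rfl
  have hle : ‖c4M K X (cg χ M) b‖ ≤ ‖c4 η (fun i => Ideal.Quotient.mk f (a i))‖ := by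
    rw [hsum, norm_mul]
    refine mul_le_of_le_one_left (norm_nonneg _) ?_
    rw [norm_mul, norm_mul, norm_mul, RCLike.norm_conj]
    have h3 := norm_nonneg c₀
    exact mul_le_one₀ (mul_le_one₀ (mul_le_one₀ hc₀ h3 hc₀) h3 hc₀) h3 hc₀
  -- the ideals
  have hsup : ∀ i j, f ⊔ idl K M (b i - b j) = f ⊔ Ideal.span {a i - a j} := by
    intro i j
    refine sup_idl hM hGn ((M : Submodule (𝓞 K) K).sub_mem (hb i) (hb j)) ?_
    have h2 : ((a i - a j : 𝓞 K) : K) = (a i : K) - (a j : K) :=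
      map_sub (algebraMap (𝓞 K) K) (a i) (a j)
    have h4 : b i - b j - ((a i - a j : 𝓞 K) : K) * x₀ =
        (b i - (a i : K) * x₀) - (b j - (a j : K) * x₀) := by rw [h2]; ring
    rw [h4]
    exact S.sub_mem (ha i) (ha j)
  have hwf : ∀ i j, wf K f M (b i - b j) = Nf K (f ⊔ Ideal.span {a i - a j}) := by
    intro i j
    unfold wf
    rw [hsup]
  have hcG : f ⊔ idl K M (b 0 - b 1) ⊔ idl K M (b 2 - b 3) =
      f ⊔ Ideal.span {a 0 - a 1} ⊔ Ideal.span {a 2 - a 3} := by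
    have e1 : ∀ A B : Ideal (𝓞 K), f ⊔ A ⊔ B = (f ⊔ A) ⊔ (f ⊔ B) := by
      intro A B
      rw [sup_sup_sup_comm, sup_idem, sup_assoc]
    rw [e1, e1 (Ideal.span {a 0 - a 1}), hsup, hsup]
  obtain ⟨t1, t2⟩ := h3 n K hn f hf η hLC a
  have hdeg : ∀ a' : Fin 4 → 𝓞 K, a' 0 = a' 2 →
      c4 η (fun i => Ideal.Quotient.mk f (a' i)) = c4 η (fun i => Ideal.Quotient.mk f (a i)) →
      ‖c4M K X (cg χ M) b‖ ≤ (dvs K f).card * Nf K (f ⊔ Ideal.span {a' 1 - a' 3}) := by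
    intro a' h0 h1
    have h2 := h5 K f hf η hLC a' h0
    rw [h1] at h2
    exact hle.trans h2
  obtain ⟨s1, s2, s3⟩ := c4_swap η (fun i => Ideal.Quotient.mk f (a i))
  refine ⟨hle.trans t1, ?_, ?_, ?_, ?_, ?_⟩
  · have h6 : ‖c4M K X (cg χ M) b‖ ^ 2 ≤ ‖c4 η (fun i => Ideal.Quotient.mk f (a i))‖ ^ 2 :=
      pow_le_pow_left₀ (norm_nonneg _) hle 2
    refine h6.trans (t2.trans (le_of_eq ?_))
    unfold cT cG
    rw [hwf, hwf, hwf, hwf, hcG]
  · intro h
    rw [hwf]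
    exact hdeg a (hab 0 2 h) rfl
  · intro h
    rw [hwf]
    refine hdeg ![a 0, a 1, a 3, a 2] (hab 0 3 h) ?_
    rw [map_vec]
    exact s1
  · intro h
    rw [hwf]
    refine hdeg ![a 1, a 0, a 2, a 3] (hab 1 2 h) ?_
    rw [map_vec]
    exact s2
  · intro h
    rw [hwf]
    refine hdeg ![a 1, a 0, a 3, a 2] (hab 1 3 h) ?_
    rw [map_vec]
    exact s3

end Pool.Agent.H86.BH
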