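import Pool.Agent.H29.BH.Targets2

/-!
# (CB) the moments of the counting function
-/

set_option autoImplicit false

open NumberField NumberField.InfinitePlace NumberField.Units
  NumberField.Units.dirichletUnitTheorem MeasureTheory Set Filter Complex
open scoped nonZeroDivisors ENNReal

namespace Pool.Agent.H86.BH

open Pool.Agent.H25.HK Pool.Agent.H23.LB Pool.Agent.H23.LC Pool.Agent.H29.DW
open Pool.Agent.H28.RC (Rep ft idl)
open Pool.Agent.H29.BH

/-- the measure of the ball of radius `3` at one place -/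
private theorem mz_ball (r : Bool) : mz r (Metric.closedBall (0 : ℂ) 3) ≤ ENNReal.ofReal 29 := by
  cases r
  · have h1 : mz false = volume := by simp [mz]
    rw [h1, Complex.volume_closedBall]
    have h2 : Real.pi < 3.15 := Real.pi_lt_d2
    have h3 : (NNReal.pi : ℝ≥0∞) = ENNReal.ofReal Real.pi := by
      rw [ENNReal.ofReal, ← NNReal.coe_real_pi, Real.toNNReal_coe]
    rw [h3, ← ENNReal.ofReal_pow (by norm_num), ← ENNReal.ofReal_mul (by positivity)]
    apply ENNReal.ofReal_le_ofReal
    nlinarith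
  · have h1 : mz true = Measure.map (fun x : ℝ => (x : ℂ)) volume := by simp [mz]
    have hemb : MeasurableEmbedding (fun x : ℝ => (x : ℂ)) :=
      Complex.isometry_ofReal.isClosedEmbedding.measurableEmbedding
    rw [h1, hemb.map_apply]
    have h2 : (fun x : ℝ => (x : ℂ)) ⁻¹' Metric.closedBall (0 : ℂ) 3 = Icc (-3) 3 := by
      ext x
      simp only [mem_preimage, Metric.mem_closedBall, dist_zero_right, Complex.norm_real,
        Real.norm_eq_abs, abs_le, mem_Icc]
    rw [h2, Real.volume_Icc]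
    apply ENNReal.ofReal_le_ofReal
    norm_num

/-- the measure of the ball of radius `3` -/
private theorem mK_ball (K : Type) [Field K] [NumberField K] :
    mK K (ZB K) ≤ ENNReal.ofReal (29 ^ Module.finrank ℚ K) := by
  have h1 : ZB K = Set.pi univ (fun _ : InfinitePlace K => Metric.closedBall (0 : ℂ) 3) := by
    ext z
    simp [ZB]
  rw [h1, mK, Measure.pi_pi]
  calc ∏ v : InfinitePlace K, mz (rv v) (Metric.closedBall (0 : ℂ) 3)
      ≤ ∏ v : InfinitePlace K, ENNReal.ofReal 29 :=
        Finset.prod_le_prod' fun v _ => mz_ball (rv v)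
    _ = ENNReal.ofReal (29 ^ Fintype.card (InfinitePlace K)) := by
        rw [Finset.prod_const, Finset.card_univ, ENNReal.ofReal_pow (by norm_num)]
    _ ≤ ENNReal.ofReal (29 ^ Module.finrank ℚ K) := by
        apply ENNReal.ofReal_le_ofReal
        apply pow_le_pow_right₀ (by norm_num)
        have h2 := card_add_two_mul_card_eq_rank K
        have h3 := card_eq_nrRealPlaces_add_nrComplexPlaces K
        omega

theorem pf_N_CB (hCA : N_CA) (hGC : N_GC) (hMT : N_MT) : N_CB := by
  intro n hn ε hε hε1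
  obtain ⟨C₁, hC₁, hCA1⟩ := hCA n hn
  obtain ⟨C₂, hC₂, hGC1⟩ := hGC n hn ε hε hε1
  refine ⟨29 ^ n * (2 * C₁) + 29 ^ n * (C₁ * (C₂ + 4)), ?_, ?_⟩
  · have h1 : (1 : ℝ) ≤ 29 ^ n := one_le_pow₀ (by norm_num)
    nlinarith [mul_pos (by positivity : (0 : ℝ) < 29 ^ n)
      (by positivity : (0 : ℝ) < C₁ * (C₂ + 4))]
  intro K _ _ hK f L y η F A S hf hL hF hη hS
  have hcon : (0 : ℝ) < 29 ^ n := by positivity
  have hA : 1 ≤ A := hS.one
  have hH : 0 < ∏ v, η v ^ v.mult := Finset.prod_pos fun v _ => pow_pos (hη v) _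
  set H : ℝ := ∏ v, η v ^ v.mult with hHdef
  have hZB : mK K (ZB K) ≤ ENNReal.ofReal (29 ^ n) := hK ▸ mK_ball K
  have hbt : 0 ≤ bt L y := by
    unfold bt
    have h1 : (0 : ℝ) ≤ (FractionalIdeal.absNorm L : ℝ) := by
      exact_mod_cast FractionalIdeal.absNorm_nonneg L
    positivity
  have hNf : (0 : ℝ) ≤ Nf K f := by
    unfold Nf
    positivity
  have hNn : ∀ a : Ideal (𝓞 K), (0 : ℝ) ≤ Nf K a := by
    intro a
    unfold Nf
    positivity
  have hm : ∀ a : Ideal (𝓞 K), ∀ z, Measurable (fun ζ => nA f L y η a ζ z) := by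
    intro a z
    have h1 := (hMT K f L y hL).2 η a
    exact h1.comp (measurable_id.prodMk measurable_const)
  have hcard : (0 : ℝ) ≤ (S.card : ℝ) := Nat.cast_nonneg _
  -- a bound for the inner integral gives a bound for the integral
  have hout : ∀ (g : (InfinitePlace K → ℂ) → ℝ≥0∞) (B : ℝ), 0 ≤ B →
      (∀ z, g z ≤ ENNReal.ofReal B) →
      ∫⁻ z in ZB K, g z ∂mK K ≤ ENNReal.ofReal (29 ^ n * B) := by
    intro g B hB hg
    calc ∫⁻ z in ZB K, g z ∂mK K ≤ ∫⁻ _ in ZB K, ENNReal.ofReal B ∂mK K :=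
          lintegral_mono hg
      _ = ENNReal.ofReal B * mK K (ZB K) := by rw [setLIntegral_const]
      _ ≤ ENNReal.ofReal B * ENNReal.ofReal (29 ^ n) := mul_le_mul_right hZB _
      _ = ENNReal.ofReal (29 ^ n * B) := by
          rw [← ENNReal.ofReal_mul hB, mul_comm]
  constructor
  · refine (hout _ (C₁ * H * (S.card * (2 * A))) (by positivity) ?_).trans ?_
    · intro z
      rw [lintegral_finsetSum _ fun a _ => hm a z]
      calc ∑ a ∈ S, ∫⁻ ζ in F, nA f L y η a ζ z ∂mK K
          ≤ ∑ a ∈ S, ENNReal.ofReal (C₁ * H * (2 * A)) := by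
            apply Finset.sum_le_sum
            intro a ha
            refine ((hCA1 K hK f a a L y η F z hf (hS.ne a ha) (hS.ne a ha) hL hF hη).1).trans ?_
            apply ENNReal.ofReal_le_ofReal
            apply mul_le_mul_of_nonneg_left (hS.size a ha).2.le
            positivity
        _ = ENNReal.ofReal (C₁ * H * (S.card * (2 * A))) := by
            rw [← ENNReal.ofReal_sum_of_nonneg (fun a _ => by positivity), Finset.sum_const,
              nsmul_eq_mul]
            congr 1
            ring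
    · apply ENNReal.ofReal_le_ofReal
      have h1 : 0 ≤ 29 ^ n * (C₁ * (C₂ + 4)) * H * (S.card * A) := by positivity
      nlinarith
  · have hAε : 1 ≤ A ^ ε := Real.one_le_rpow hA hε.le
    have hA0 : 0 < A := by linarith
    refine (hout _ (C₁ * H * (C₂ * S.card * A ^ (1 + ε) +
      H * bt L y * (S.card * (2 * A)) ^ 2 / Nf K f)) (by positivity) ?_).trans ?_
    · intro z
      have h1 : ∀ ζ, (∑ a ∈ S, nA f L y η a ζ z) ^ 2 =
          ∑ a ∈ S, ∑ b ∈ S, nA f L y η a ζ z * nA f L y η b ζ z := by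
        intro ζ
        rw [sq, Finset.sum_mul_sum]
      simp_rw [h1]
      have hmm : ∀ a b : Ideal (𝓞 K), Measurable (fun ζ => nA f L y η a ζ z * nA f L y η b ζ z) :=
        fun a b => (hm a z).mul (hm b z)
      have hms : ∀ a : Ideal (𝓞 K),
          Measurable (fun ζ => ∑ b ∈ S, nA f L y η a ζ z * nA f L y η b ζ z) :=
        fun a => Finset.measurable_fun_sum _ fun b _ => hmm a b
      rw [lintegral_finsetSum S fun a _ => hms a]
      have h2 : ∀ a ∈ S, ∫⁻ ζ in F, ∑ b ∈ S, nA f L y η a ζ z * nA f L y η b ζ z ∂mK K ≤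
          ∑ b ∈ S, ENNReal.ofReal (C₁ * H * (Nf K (a ⊔ b) +
            H * bt L y * (Nf K a * Nf K b) / Nf K f)) := by
        intro a ha
        rw [lintegral_finsetSum S fun b _ => hmm a b]
        apply Finset.sum_le_sum
        intro b hb
        exact (hCA1 K hK f a b L y η F z hf (hS.ne a ha) (hS.ne b hb) hL hF hη).2
      refine (Finset.sum_le_sum h2).trans ?_
      have hpos : ∀ a b : Ideal (𝓞 K), 0 ≤ C₁ * H * (Nf K (a ⊔ b) +
            H * bt L y * (Nf K a * Nf K b) / Nf K f) := by
        intro a b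
        have := hNn (a ⊔ b)
        have := hNn a
        have := hNn b
        positivity
      have h3 : ∑ a ∈ S, ∑ b ∈ S, ENNReal.ofReal (C₁ * H * (Nf K (a ⊔ b) +
            H * bt L y * (Nf K a * Nf K b) / Nf K f)) =
          ENNReal.ofReal (∑ a ∈ S, ∑ b ∈ S, (C₁ * H * (Nf K (a ⊔ b) +
            H * bt L y * (Nf K a * Nf K b) / Nf K f))) := by
        rw [ENNReal.ofReal_sum_of_nonneg fun a _ => Finset.sum_nonneg fun b _ => hpos a b]
        apply Finset.sum_congr rfl
        intro a _
        rw [ENNReal.ofReal_sum_of_nonneg fun b _ => hpos a b]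
      rw [h3]
      apply ENNReal.ofReal_le_ofReal
      have h4 : ∑ a ∈ S, ∑ b ∈ S, (C₁ * H * (Nf K (a ⊔ b) +
            H * bt L y * (Nf K a * Nf K b) / Nf K f)) =
          C₁ * H * (∑ a ∈ S, ∑ b ∈ S, Nf K (a ⊔ b) +
            H * bt L y * (∑ a ∈ S, Nf K a) ^ 2 / Nf K f) := by
        rw [sq, Finset.sum_mul_sum, Finset.mul_sum, Finset.sum_div, ← Finset.sum_add_distrib,
          Finset.mul_sum]
        apply Finset.sum_congr rfl
        intro a _
        rw [Finset.mul_sum, Finset.sum_div, ← Finset.sum_add_distrib, Finset.mul_sum]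
      rw [h4]
      apply mul_le_mul_of_nonneg_left _ (by positivity)
      have h5 : ∑ a ∈ S, Nf K a ≤ S.card * (2 * A) := by
        calc ∑ a ∈ S, Nf K a ≤ ∑ a ∈ S, 2 * A :=
              Finset.sum_le_sum fun a ha => (hS.size a ha).2.le
          _ = S.card * (2 * A) := by rw [Finset.sum_const, nsmul_eq_mul]
      have h6 : 0 ≤ ∑ a ∈ S, Nf K a := Finset.sum_nonneg fun a _ => hNn a
      apply add_le_add
      · exact (hGC1 K hK f A S hS).1
      · apply div_le_div_of_nonneg_right _ hNf
        apply mul_le_mul_of_nonneg_left _ (by positivity)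
        exact pow_le_pow_left₀ h6 h5 2
    · apply ENNReal.ofReal_le_ofReal
      rw [Real.rpow_add hA0, Real.rpow_one]
      set s : ℝ := (S.card : ℝ) with hs
      set q : ℝ := H * bt L y * (s * A) / Nf K f with hq
      have hq0 : 0 ≤ q := by positivity
      have h7 : H * bt L y * (s * (2 * A)) ^ 2 / Nf K f = q * (4 * (s * A)) := by
        rw [hq]
        ring
      rw [h7]
      have h8 : C₂ * s * (A * A ^ ε) + q * (4 * (s * A)) ≤
          (C₂ + 4) * (s * A * A ^ ε * (1 + q)) := by
        have h9 : 0 ≤ s * A := by positivity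
        have h10 : s * A ≤ s * A * A ^ ε := le_mul_of_one_le_right h9 hAε
        have h11 : 0 ≤ s * A * A ^ ε := by positivity
        have h12 : q * (4 * (s * A)) ≤ 4 * (q * (s * A * A ^ ε)) := by
          nlinarith
        have h13 : 0 ≤ C₂ * (q * (s * A * A ^ ε)) := by positivity
        nlinarith
      have h14 : 0 ≤ s * A * A ^ ε * (1 + q) := by positivity
      have h15 : 0 ≤ 29 ^ n * (2 * C₁) * H * (s * A * A ^ ε * (1 + q)) := by positivity
      have h16 : 29 ^ n * (C₁ * H * (C₂ * s * (A * A ^ ε) + q * (4 * (s * A)))) ≤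
          29 ^ n * (C₁ * H * ((C₂ + 4) * (s * A * A ^ ε * (1 + q)))) := by
        apply mul_le_mul_of_nonneg_left _ hcon.le
        apply mul_le_mul_of_nonneg_left h8
        positivity
      calc _ ≤ _ := h16
        _ ≤ _ := by nlinarith
end Pool.Agent.H86.BH
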