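import Pool.Agent.H29.BH.Targets2
import Pool.Agent.H20.HKI.Leaf
import Pool.Agent.H26.MV.Tors
import Pool.Agent.H41.HK.BI
import Pool.Agent.H41.HK.G1
import Pool.Agent.H41.HK.GI
import Pool.Agent.H41.HK.JA
import Pool.Agent.H41.HK.UN
import Pool.Agent.H65.GLA.RR
import Pool.Agent.H66.HK.FD
import Pool.Agent.H66.HK.ME
import Pool.Agent.H69.LB.SY
import Pool.Agent.H77.GLA.SE
import Pool.Agent.H87.HK.CT

/-!
# (ID) the number of the ideals
-/

set_option autoImplicit false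

open NumberField NumberField.InfinitePlace NumberField.Units
  NumberField.Units.dirichletUnitTheorem MeasureTheory Set Filter Complex
open scoped nonZeroDivisors ENNReal

namespace Pool.Agent.H86.BH

open Pool.Agent.H25.HK Pool.Agent.H23.LB Pool.Agent.H23.LC Pool.Agent.H29.DW
open Pool.Agent.H28.RC (Rep ft idl)
open Pool.Agent.H20.HKI (b_TH b_YC b_UI b_DU)
open Pool.Agent.H66.HK (H H_pos continuous_H lemB)
open Pool.Agent.H29.BH

private theorem c_CT : T_CT := Pool.Agent.H87.HK.ct b_TH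

private theorem c_GI : T_GI :=
  Pool.Agent.H41.HK.gi Pool.Agent.H41.HK.ja Pool.Agent.H41.HK.g1 b_YC

section Tools

variable (K : Type) [Field K] [NumberField K]

open scoped Classical in
/-- the Gamma integral, real version -/
private theorem gi_real (x : K) (hx : x ≠ 0) (s : ℝ) (hs : 0 < s) :
    ∫⁻ τ : ℝ, ∫⁻ z : logSpace K, ENNReal.ofReal (H K x τ z * Real.exp (s * τ)) ≤
      ENNReal.ofReal (‖gK K (s : ℂ)‖ * ((|Algebra.norm ℚ x| : ℚ) : ℝ) ^ (-s)) := by
  obtain ⟨h1, h2⟩ := c_GI K x (s : ℂ) hx (by simpa using hs)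
  set g : ℝ × logSpace K → ℝ := fun p => H K x p.1 p.2 * Real.exp (s * p.1) with hg
  have h3 : (fun p : ℝ × logSpace K => (Real.exp (-Real.pi * qK K (yc K p.1 p.2) x) : ℂ) *
      cexp (((s : ℝ) : ℂ) * p.1)) = fun p => ((g p : ℝ) : ℂ) := by
    funext p
    simp only [hg, H]
    push_cast
    rfl
  rw [h3] at h1 h2
  have h4 : Integrable g := by
    have := h1.re
    simpa using this
  have h5 : ∀ p, 0 ≤ g p := fun p => by
    simp only [hg]
    exact mul_nonneg (H_pos K _ _ _).le (Real.exp_pos _).le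
  have h6 : ∫⁻ p, ENNReal.ofReal (g p) = ENNReal.ofReal (∫ p, g p) :=
    (ofReal_integral_eq_lintegral_ofReal h4 (ae_of_all _ h5)).symm
  have h7 : ∫⁻ p, ENNReal.ofReal (g p) =
      ∫⁻ τ : ℝ, ∫⁻ z : logSpace K, ENNReal.ofReal (H K x τ z * Real.exp (s * τ)) := by
    rw [Measure.volume_eq_prod, lintegral_prod _ h4.1.aemeasurable.ennreal_ofReal]
  rw [← h7, h6]
  apply ENNReal.ofReal_le_ofReal
  have h8 : ∫ p, g p = ‖∫ p, ((g p : ℝ) : ℂ)‖ := by
    rw [integral_complex_ofReal, Complex.norm_real, Real.norm_of_nonneg (integral_nonneg h5)]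
  rw [h8, h2, norm_mul, norm_mul]
  have hN : 0 < ((|Algebra.norm ℚ x| : ℚ) : ℝ) := by
    have : Algebra.norm ℚ x ≠ 0 := by
      rwa [Ne, Algebra.norm_eq_zero_iff]
    exact_mod_cast abs_pos.2 this
  have h9 : ‖(((|Algebra.norm ℚ x| : ℚ) : ℝ) : ℂ) ^ (-((s : ℝ) : ℂ))‖ =
      ((|Algebra.norm ℚ x| : ℚ) : ℝ) ^ (-s) := by
    rw [Complex.norm_cpow_eq_rpow_re_of_pos hN]
    simp
  rw [h9]
  apply mul_le_mul_of_nonneg_right _ (by positivity)
  have h10 : ‖((2 : ℂ) ^ (nrRealPlaces K + nrComplexPlaces K))⁻¹‖ ≤ 1 := by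
    rw [norm_inv, norm_pow]
    apply inv_le_one_of_one_le₀
    apply one_le_pow₀
    simp
  calc _ ≤ 1 * ‖gK K (s : ℂ)‖ := mul_le_mul_of_nonneg_right h10 (norm_nonneg _)
    _ = _ := one_mul _

open scoped Classical in
/-- the Gamma integral over an interval -/
private theorem gi_int (x : K) (hx : x ≠ 0) (s ℓ τ₀ : ℝ) (hs : 0 < s) :
    ∫⁻ τ in Icc τ₀ (τ₀ + 1), ∫⁻ z : logSpace K, ENNReal.ofReal (H K x (τ - ℓ) z) ≤
      ENNReal.ofReal (‖gK K (s : ℂ)‖ * (Real.exp (-τ₀) * Real.exp ℓ /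
        ((|Algebra.norm ℚ x| : ℚ) : ℝ)) ^ s) := by
  have hN : 0 < ((|Algebra.norm ℚ x| : ℚ) : ℝ) := by
    have : Algebra.norm ℚ x ≠ 0 := by
      rwa [Ne, Algebra.norm_eq_zero_iff]
    exact_mod_cast abs_pos.2 this
  set F : ℝ → ℝ≥0∞ := fun τ => ∫⁻ z : logSpace K, ENNReal.ofReal (H K x τ z * Real.exp (s * τ))
    with hF
  have h1 : ∀ τ ∈ Icc τ₀ (τ₀ + 1), ∫⁻ z : logSpace K, ENNReal.ofReal (H K x (τ - ℓ) z) ≤
      ENNReal.ofReal (Real.exp (s * (ℓ - τ₀))) * F (τ - ℓ) := by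
    intro τ hτ
    rw [hF]
    dsimp only
    rw [← lintegral_const_mul' _ _ ENNReal.ofReal_ne_top]
    apply lintegral_mono
    intro z
    dsimp only
    rw [← ENNReal.ofReal_mul (Real.exp_pos _).le]
    apply ENNReal.ofReal_le_ofReal
    have h2 : Real.exp (s * (ℓ - τ₀)) * (H K x (τ - ℓ) z * Real.exp (s * (τ - ℓ))) =
        H K x (τ - ℓ) z * Real.exp (s * (τ - τ₀)) := by
      rw [mul_left_comm, ← Real.exp_add]
      congr 2
      ring
    rw [h2]
    apply le_mul_of_one_le_right (H_pos K _ _ _).le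
    apply Real.one_le_exp
    exact mul_nonneg hs.le (by linarith [hτ.1])
  calc ∫⁻ τ in Icc τ₀ (τ₀ + 1), ∫⁻ z : logSpace K, ENNReal.ofReal (H K x (τ - ℓ) z)
      ≤ ∫⁻ τ in Icc τ₀ (τ₀ + 1), ENNReal.ofReal (Real.exp (s * (ℓ - τ₀))) * F (τ - ℓ) :=
        setLIntegral_mono' measurableSet_Icc h1
    _ ≤ ∫⁻ τ, ENNReal.ofReal (Real.exp (s * (ℓ - τ₀))) * F (τ - ℓ) :=
        setLIntegral_le_lintegral _ _
    _ = ENNReal.ofReal (Real.exp (s * (ℓ - τ₀))) * ∫⁻ τ, F (τ - ℓ) :=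
        lintegral_const_mul' _ _ ENNReal.ofReal_ne_top
    _ = ENNReal.ofReal (Real.exp (s * (ℓ - τ₀))) * ∫⁻ τ, F τ := by
        rw [lintegral_sub_right_eq_self]
    _ ≤ ENNReal.ofReal (Real.exp (s * (ℓ - τ₀))) *
        ENNReal.ofReal (‖gK K (s : ℂ)‖ * ((|Algebra.norm ℚ x| : ℚ) : ℝ) ^ (-s)) :=
        mul_le_mul_right (gi_real K x hx s hs) _
    _ = _ := by
        rw [← ENNReal.ofReal_mul (Real.exp_pos _).le]
        congr 1
        rw [← Real.exp_add, Real.div_rpow (Real.exp_pos _).le hN.le, ← Real.exp_mul,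
          Real.rpow_neg hN.le]
        have : s * (ℓ - τ₀) = (-τ₀ + ℓ) * s := by ring
        rw [this]
        ring

/-- the Gamma factors -/
private theorem gK_le (n : ℕ) (hn : Module.finrank ℚ K = n) (s : ℂ) :
    ‖gK K s‖ ≤ (max 1 ‖Gammaℝ s‖) ^ n * (max 1 ‖Gammaℂ s‖) ^ n := by
  have h2 := card_add_two_mul_card_eq_rank K
  unfold gK
  rw [norm_mul, norm_pow, norm_pow]
  have h3 : ‖Gammaℝ s‖ ^ nrRealPlaces K ≤ (max 1 ‖Gammaℝ s‖) ^ n :=
    (pow_le_pow_left₀ (norm_nonneg _) (le_max_right _ _) _).trans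
      (pow_le_pow_right₀ (le_max_left _ _) (by omega))
  have h4 : ‖Gammaℂ s‖ ^ nrComplexPlaces K ≤ (max 1 ‖Gammaℂ s‖) ^ n :=
    (pow_le_pow_left₀ (norm_nonneg _) (le_max_right _ _) _).trans
      (pow_le_pow_right₀ (le_max_left _ _) (by omega))
  exact mul_le_mul h3 h4 (by positivity) (by positivity)

/-- the theta function is large for `τ → -∞` -/
private theorem th_ge (M : FI K) (hM : M ≠ 0) (τ : ℝ) (z : logSpace K) :
    Real.exp (-τ) / Real.sqrt |(discr K : ℝ)| ≤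
      th K M (yc K (τ - Real.log (FractionalIdeal.absNorm M : ℝ)) z) := by
  obtain ⟨hd, -, -, hp, -⟩ := b_DU K M hM
  rw [(b_TH K M hM _).2, (b_YC K).1]
  have h1 : (1 : ℝ) ≤ th K (du K M)
      (-yc K (τ - Real.log (FractionalIdeal.absNorm M : ℝ)) z) := by
    have hs := (b_TH K (du K M) hd
      (-yc K (τ - Real.log (FractionalIdeal.absNorm M : ℝ)) z)).1
    have h0 : (0 : K) ∈ du K M := by exact zero_mem (du K M : Submodule (𝓞 K) K)
    have h2 := hs.le_tsum ⟨0, h0⟩ (fun _ _ => (Real.exp_pos _).le)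
    rw [th]
    simpa [qK] using h2
  have h2 : Real.exp (-(2 * (τ - Real.log (FractionalIdeal.absNorm M : ℝ))) / 2) *
      (cv K M)⁻¹ = Real.exp (-τ) / Real.sqrt |(discr K : ℝ)| := by
    have h3 : -(2 * (τ - Real.log (FractionalIdeal.absNorm M : ℝ))) / 2 =
        -τ + Real.log (FractionalIdeal.absNorm M : ℝ) := by ring
    rw [h3, Real.exp_add, Real.exp_log hp, cv, mul_inv]
    field_simp
  rw [h2]
  exact le_mul_of_one_le_right (by positivity) h1

end Tools

section Main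

variable (K : Type) [Field K] [NumberField K]

/-- the number of the ideals as a sum -/
private theorem tsum_count (A : ℝ) :
    ∑' J : NZI K, (if (Ideal.absNorm J.1 : ℝ) ≤ A then (1 : ℝ≥0∞) else 0) =
      ENNReal.ofReal (({I : Ideal (𝓞 K) | I ≠ ⊥ ∧ (Ideal.absNorm I : ℝ) ≤ A}.ncard : ℕ) : ℝ) ∧
    {I : Ideal (𝓞 K) | I ≠ ⊥ ∧ (Ideal.absNorm I : ℝ) ≤ A}.Finite := by
  classical
  have hfin : {I : Ideal (𝓞 K) | I ≠ ⊥ ∧ (Ideal.absNorm I : ℝ) ≤ A}.Finite := by
    refine (Ideal.finite_setOfPred_absNorm_le (S := 𝓞 K) ⌊A⌋₊).subset ?_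
    rintro I ⟨-, hI⟩
    exact Nat.le_floor hI
  refine ⟨?_, hfin⟩
  set T : Set (NZI K) := {J | (Ideal.absNorm J.1 : ℝ) ≤ A} with hT
  have himg : Subtype.val '' T = {I : Ideal (𝓞 K) | I ≠ ⊥ ∧ (Ideal.absNorm I : ℝ) ≤ A} := by
    ext I
    constructor
    · rintro ⟨J, hJ, rfl⟩
      exact ⟨J.2, hJ⟩
    · rintro ⟨h1, h2⟩
      exact ⟨⟨I, h1⟩, h2, rfl⟩
  have hTf : T.Finite := by
    refine Set.Finite.of_finite_image (f := Subtype.val) ?_ Subtype.val_injective.injOn
    rw [himg]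
    exact hfin
  rw [tsum_eq_sum (s := hTf.toFinset)]
  · have h1 : ∑ J ∈ hTf.toFinset, (if (Ideal.absNorm J.1 : ℝ) ≤ A then (1 : ℝ≥0∞) else 0) =
        ∑ _J ∈ hTf.toFinset, (1 : ℝ≥0∞) := by
      apply Finset.sum_congr rfl
      intro J hJ
      rw [if_pos]
      simpa [hT] using hJ
    rw [h1, Finset.sum_const, nsmul_eq_mul, mul_one, ← Set.ncard_eq_toFinset_card T hTf,
      ENNReal.ofReal_natCast, ← himg, Set.ncard_image_of_injective _ Subtype.val_injective]
  · intro J hJ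
    rw [if_neg]
    intro h
    apply hJ
    simpa [hT] using h

open scoped Classical in
/-- the main inequality: `X = exp(-τ₀)`, `b` is a bound for the terms -/
private theorem main_ineq (ι : Type) [Fintype ι] (M : ι → FI K) (hM : Reps K M) (X : ℝ)
    (hX : 2 * Real.exp 1 * Real.sqrt |(discr K : ℝ)| ≤ X) (b : NZI K → ℝ)
    (hb : ∀ J : NZI K, ∃ s : ℝ, 0 < s ∧
      ‖gK K (s : ℂ)‖ * (X / (Ideal.absNorm J.1 : ℝ)) ^ s ≤ b J) :
    ENNReal.ofReal (classNumber K * (regulator K * (X / (2 * Real.exp 1 *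
      Real.sqrt |(discr K : ℝ)|)))) ≤
      (torsionOrder K : ℝ≥0∞) * ∑' J : NZI K, ENNReal.ofReal (b J) := by
  have hsq : 0 < Real.sqrt |(discr K : ℝ)| := by
    apply Real.sqrt_pos.2
    apply abs_pos.2
    exact_mod_cast discr_ne_zero K
  have hX0 : 0 < X := lt_of_lt_of_le (by positivity) hX
  set τ₀ : ℝ := -Real.log X with hτ₀
  have hXe : Real.exp (-τ₀) = X := by
    rw [hτ₀, neg_neg, Real.exp_log hX0]
  have hcard : Fintype.card ι = classNumber K := (Pool.Agent.H65.GLA.pf_RR K ι M hM).2.2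
  set D : ℝ := Real.sqrt |(discr K : ℝ)| with hD
  have key : ∀ c : ι, ENNReal.ofReal (regulator K * (X / (2 * Real.exp 1 * D))) ≤
      (torsionOrder K : ℝ≥0∞) * ∑' I : {I : Ideal (𝓞 K) // Pri K (M c) I},
        ENNReal.ofReal (b ⟨I.1, I.2.1⟩) := by
    intro c
    have hMc := hM.1 c
    obtain ⟨Y, hY1, hYM, hY⟩ := Pool.Agent.H41.HK.bi K (M c) hMc
    have hY0 : ∀ I, Y I ≠ 0 := fun I => (hY1 I).1
    have hcount : Countable {I : Ideal (𝓞 K) // Pri K (M c) I} := by
      have h1 := (b_TH K (M c) hMc 0).1.countable_support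
      have h2 : Function.support (fun x : {x : K // x ∈ M c} =>
          Real.exp (-Real.pi * qK K 0 x)) = Set.univ := by
        ext x
        simp [(Real.exp_pos _).ne']
      rw [h2, Set.countable_univ_iff] at h1
      refine Function.Injective.countable (f := fun I => (⟨Y I, by
        simpa using hYM I 1⟩ : {x : K // x ∈ M c})) ?_
      intro I J hIJ
      have e : Y I = Y J := congrArg Subtype.val hIJ
      have e1 := hY (Y I) (by simpa using hYM I 1) (hY0 I)
      have e2 := e1.unique (y₁ := (I, 1)) (y₂ := (J, 1)) (by simp) (by simp [e])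
      exact congrArg Prod.fst e2
    set ℓ : ℝ := Real.log (FractionalIdeal.absNorm (M c) : ℝ) with hℓ
    have hp : 0 < (FractionalIdeal.absNorm (M c) : ℝ) := (b_DU K (M c) hMc).2.2.2.1
    have hB := fun τ : ℝ => lemB K b_TH c_CT b_YC b_UI Pool.Agent.H66.HK.fd
      Pool.Agent.H41.HK.un (M c) hMc Y hY0 hYM hY (τ - ℓ)
    -- the lower bound
    have hlow : ∀ τ ∈ Icc τ₀ (τ₀ + 1),
        ENNReal.ofReal (regulator K * (X / (2 * Real.exp 1 * D))) ≤
          (torsionOrder K : ℝ≥0∞) * ∑' I, ∫⁻ z : logSpace K,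
            ENNReal.ofReal (H K (Y I) (τ - ℓ) z) := by
      intro τ hτ
      rw [← (hB τ).2.2]
      apply ENNReal.ofReal_le_ofReal
      have h1 : X / (2 * Real.exp 1 * D) + 1 ≤ Real.exp (-τ) / D := by
        have h2 : X / Real.exp 1 ≤ Real.exp (-τ) := by
          rw [← hXe, ← Real.exp_sub]
          exact Real.exp_le_exp.2 (by linarith [hτ.2])
        have h3 : X / (2 * Real.exp 1 * D) = (X / Real.exp 1) / D / 2 := by
          field_simp
        have h4 : (X / Real.exp 1) / D ≤ Real.exp (-τ) / D :=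
          div_le_div_of_nonneg_right h2 hsq.le
        have h5 : 1 ≤ X / (2 * Real.exp 1 * D) := by
          rw [le_div_iff₀ (by positivity)]
          linarith
        linarith
      have h6 : ∀ z, X / (2 * Real.exp 1 * D) ≤ th K (M c) (yc K (τ - ℓ) z) - 1 := by
        intro z
        have := th_ge K (M c) hMc τ z
        linarith
      have hvol : volume (Fd K) ≠ ⊤ := (Pool.Agent.H66.HK.fd K).2.2.2.1.ne
      have hreg : volume.real (Fd K) = regulator K := by
        unfold regulator Fd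
        exact (ZLattice.covolume_eq_measure_fundamentalDomain (unitLattice K) volume
          (ZLattice.isAddFundamentalDomain (basisUnitLattice K) volume)).symm
      calc regulator K * (X / (2 * Real.exp 1 * D))
          = ∫ z in Fd K, X / (2 * Real.exp 1 * D) := by
            rw [setIntegral_const, hreg, smul_eq_mul]
        _ ≤ ∫ z in Fd K, (th K (M c) (yc K (τ - ℓ) z) - 1) :=
            setIntegral_mono (integrableOn_const hvol) (hB τ).1 h6
    -- measurability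
    have hmeas : ∀ I, Measurable (fun τ : ℝ => ∫⁻ z : logSpace K,
        ENNReal.ofReal (H K (Y I) (τ - ℓ) z)) := by
      intro I
      have h1 : Continuous (fun p : ℝ × logSpace K => H K (Y I) (p.1 - ℓ) p.2) :=
        (continuous_H K b_YC (Y I)).comp
          ((continuous_fst.sub continuous_const).prodMk continuous_snd)
      exact (ENNReal.measurable_ofReal.comp h1.measurable).lintegral_prod_right'
    calc ENNReal.ofReal (regulator K * (X / (2 * Real.exp 1 * D)))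
        = ∫⁻ τ in Icc τ₀ (τ₀ + 1),
            ENNReal.ofReal (regulator K * (X / (2 * Real.exp 1 * D))) := by
          rw [setLIntegral_const, Real.volume_Icc]
          simp
      _ ≤ ∫⁻ τ in Icc τ₀ (τ₀ + 1), (torsionOrder K : ℝ≥0∞) * ∑' I, ∫⁻ z : logSpace K,
            ENNReal.ofReal (H K (Y I) (τ - ℓ) z) :=
          setLIntegral_mono' measurableSet_Icc hlow
      _ = (torsionOrder K : ℝ≥0∞) * ∑' I, ∫⁻ τ in Icc τ₀ (τ₀ + 1), ∫⁻ z : logSpace K,
            ENNReal.ofReal (H K (Y I) (τ - ℓ) z) := by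
          rw [lintegral_const_mul' _ _ (ENNReal.natCast_ne_top _),
            lintegral_tsum fun I => (hmeas I).aemeasurable]
      _ ≤ _ := by
          gcongr with I
          obtain ⟨s, hs, hsb⟩ := hb ⟨I.1, I.2.1⟩
          refine (gi_int K (Y I) (hY0 I) s ℓ τ₀ hs).trans ?_
          apply ENNReal.ofReal_le_ofReal
          have h1 : Real.exp (-τ₀) * Real.exp ℓ / ((|Algebra.norm ℚ (Y I)| : ℚ) : ℝ) =
              X / (Ideal.absNorm I.1 : ℝ) := by
            rw [hXe, hℓ, Real.exp_log hp, (hY1 I).2]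
            have h2 : (0 : ℝ) < (Ideal.absNorm I.1 : ℝ) := by
              have : Ideal.absNorm I.1 ≠ 0 := fun h => I.2.1 (Ideal.absNorm_eq_zero_iff.1 h)
              exact_mod_cast Nat.pos_of_ne_zero this
            field_simp
          rw [h1]
          exact hsb
  calc ENNReal.ofReal (classNumber K * (regulator K * (X / (2 * Real.exp 1 * D))))
      = ∑ _c : ι, ENNReal.ofReal (regulator K * (X / (2 * Real.exp 1 * D))) := by
        rw [Finset.sum_const, Finset.card_univ, hcard, nsmul_eq_mul,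
          ENNReal.ofReal_mul (Nat.cast_nonneg _), ENNReal.ofReal_natCast]
    _ ≤ ∑ c : ι, (torsionOrder K : ℝ≥0∞) * ∑' I : {I : Ideal (𝓞 K) // Pri K (M c) I},
        ENNReal.ofReal (b ⟨I.1, I.2.1⟩) := Finset.sum_le_sum fun c _ => key c
    _ = (torsionOrder K : ℝ≥0∞) * ∑' p : (Σ c : ι, {I : Ideal (𝓞 K) // Pri K (M c) I}),
        ENNReal.ofReal (b ⟨p.2.1, p.2.2.1⟩) := by
        have h1 := ENNReal.tsum_sigma (fun (c : ι) (I : {I : Ideal (𝓞 K) // Pri K (M c) I}) =>
          ENNReal.ofReal (b ⟨I.1, I.2.1⟩))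
        rw [← Finset.mul_sum, h1, tsum_fintype]
    _ ≤ _ := by
        gcongr
        refine ENNReal.tsum_comp_le_tsum_of_injective
          (f := fun p : (Σ c : ι, {I : Ideal (𝓞 K) // Pri K (M c) I}) =>
            (⟨p.2.1, p.2.2.1⟩ : NZI K)) ?_ (fun J => ENNReal.ofReal (b J))
        rintro ⟨c, I, hI⟩ ⟨c', I', hI'⟩ h
        have h1 : I = I' := congrArg Subtype.val h
        subst h1
        have h2 : c = c' := (hM.2 I hI.1).unique hI hI'
        subst h2
        rfl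

end Main

theorem pf_P_ID : P_ID := by
  intro n hn ε hε hε4
  set k : ℝ := 4 / ε with hk
  set d : ℝ := ε / 4 with hd
  have hk16 : 16 ≤ k := by
    rw [hk, le_div_iff₀ hε]
    linarith
  have hd0 : 0 < d := by positivity
  set G : ℝ → ℝ := fun s => (max 1 ‖Gammaℝ (s : ℂ)‖) ^ n * (max 1 ‖Gammaℂ (s : ℂ)‖) ^ n with hG
  have hG0 : ∀ s, 0 < G s := by
    intro s
    simp only [hG]
    have h1 : (0 : ℝ) < max 1 ‖Gammaℝ (s : ℂ)‖ := lt_of_lt_of_le one_pos (le_max_left _ _)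
    have h2 : (0 : ℝ) < max 1 ‖Gammaℂ (s : ℂ)‖ := lt_of_lt_of_le one_pos (le_max_left _ _)
    positivity
  obtain ⟨Z, hZ⟩ := Pool.Agent.H77.GLA.pf_SE.2.1 n 2 (by norm_num)
  set B : ℝ := 2 * Real.exp 1 with hB
  have hB1 : 1 ≤ B := by
    have := Real.add_one_le_exp (1 : ℝ)
    rw [hB]
    linarith
  have hB0 : 0 < B := by linarith
  set W : ℝ := (((2 * n) ^ (n + 2) : ℕ) : ℝ) with hW
  set Q : ℝ := W * (G d + G k * B ^ k * |Z|) * B ^ d with hQ
  have hW0 : 0 < W := by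
    rw [hW]
    positivity
  have hQ0 : 0 < Q := by
    have := hG0 d
    have := hG0 k
    positivity
  refine ⟨Q⁻¹, by positivity, ?_⟩
  intro K _ _ hK A hA
  have hdisc : (1 : ℝ) ≤ |(discr K : ℝ)| := by
    have h : (1 : ℤ) ≤ |discr K| := Int.one_le_abs (discr_ne_zero K)
    exact_mod_cast h
  have hA1 : 1 ≤ A := (Real.one_le_rpow hdisc (by linarith)).trans hA
  have hA0 : 0 < A := by linarith
  set D : ℝ := Real.sqrt |(discr K : ℝ)| with hD
  have hD0 : 0 < D := Real.sqrt_pos.2 (by linarith)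
  have hDA : D ≤ A ^ (1 - ε / 2) := by
    have h1 : |(discr K : ℝ)| ^ ((1 / 2 + ε) * (1 - ε / 2)) ≤ A ^ (1 - ε / 2) := by
      rw [Real.rpow_mul (by linarith)]
      exact Real.rpow_le_rpow (by positivity) hA (by linarith)
    rw [hD, Real.sqrt_eq_rpow]
    refine (Real.rpow_le_rpow_of_exponent_le hdisc ?_).trans h1
    nlinarith
  set X : ℝ := B * A ^ (1 - ε / 2) with hX
  have hX1 : 1 ≤ X := by
    have := Real.one_le_rpow hA1 (by linarith : 0 ≤ 1 - ε / 2)
    rw [hX]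
    nlinarith
  have hX0 : 0 < X := by linarith
  have hXD : 2 * Real.exp 1 * D ≤ X := by
    rw [← hB, hX]
    exact mul_le_mul_of_nonneg_left hDA hB0.le
  obtain ⟨⟨ι, M, Xc, hreps, hrep⟩⟩ := Pool.Agent.H69.LB.pf_SY K ⊤ top_ne_bot
  set N : ℝ := (({I : Ideal (𝓞 K) | I ≠ ⊥ ∧ (Ideal.absNorm I : ℝ) ≤ A}.ncard : ℕ) : ℝ) with hN
  obtain ⟨hcnt, hfin⟩ := tsum_count K A
  have hN1 : 1 ≤ N := by
    have h1 : (⊤ : Ideal (𝓞 K)) ∈ {I : Ideal (𝓞 K) | I ≠ ⊥ ∧ (Ideal.absNorm I : ℝ) ≤ A} := by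
      refine ⟨top_ne_bot, ?_⟩
      rw [Ideal.absNorm_top]
      simpa using hA1
    have h2 : 0 < {I : Ideal (𝓞 K) | I ≠ ⊥ ∧ (Ideal.absNorm I : ℝ) ≤ A}.ncard :=
      (Set.ncard_pos hfin).2 ⟨_, h1⟩
    rw [hN]
    exact_mod_cast h2
  have hNJ : ∀ J : NZI K, (1 : ℝ) ≤ (Ideal.absNorm J.1 : ℝ) := by
    intro J
    have : Ideal.absNorm J.1 ≠ 0 := fun h => J.2 (Ideal.absNorm_eq_zero_iff.1 h)
    exact_mod_cast Nat.one_le_iff_ne_zero.2 this
  set b : NZI K → ℝ := fun J => G d * X ^ d * (if (Ideal.absNorm J.1 : ℝ) ≤ A then 1 else 0) +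
    G k * B ^ k * (Ideal.absNorm J.1 : ℝ) ^ (-2 : ℝ) with hb
  have hbs : ∀ J : NZI K, ∃ s : ℝ, 0 < s ∧
      ‖gK K (s : ℂ)‖ * (X / (Ideal.absNorm J.1 : ℝ)) ^ s ≤ b J := by
    intro J
    have hJ := hNJ J
    have hJ0 : (0 : ℝ) < (Ideal.absNorm J.1 : ℝ) := by linarith
    by_cases h : (Ideal.absNorm J.1 : ℝ) ≤ A
    · refine ⟨d, hd0, ?_⟩
      simp only [hb, if_pos h, mul_one]
      have h1 : ‖gK K (d : ℂ)‖ ≤ G d := gK_le K n hK _
      have h2 : (X / (Ideal.absNorm J.1 : ℝ)) ^ d ≤ X ^ d :=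
        Real.rpow_le_rpow (by positivity) (div_le_self hX0.le hJ) hd0.le
      have h3 : ‖gK K (d : ℂ)‖ * (X / (Ideal.absNorm J.1 : ℝ)) ^ d ≤ G d * X ^ d :=
        mul_le_mul h1 h2 (by positivity) (hG0 d).le
      have h4 : 0 ≤ G k * B ^ k * (Ideal.absNorm J.1 : ℝ) ^ (-2 : ℝ) := by
        have := hG0 k
        positivity
      linarith
    · refine ⟨k, by linarith, ?_⟩
      simp only [hb, if_neg h, mul_zero, zero_add]
      rw [not_le] at h
      have h1 : ‖gK K (k : ℂ)‖ ≤ G k := gK_le K n hK _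
      have h2 : (X / (Ideal.absNorm J.1 : ℝ)) ^ k ≤
          B ^ k * (Ideal.absNorm J.1 : ℝ) ^ (-2 : ℝ) := by
        rw [Real.div_rpow hX0.le hJ0.le, hX, Real.mul_rpow hB0.le (by positivity),
          ← Real.rpow_mul hA0.le]
        have h3 : (1 - ε / 2) * k = k - 2 := by
          rw [hk]
          field_simp
          ring
        rw [h3, mul_div_assoc]
        apply mul_le_mul_of_nonneg_left _ (by positivity)
        rw [div_le_iff₀ (by positivity), ← Real.rpow_add hJ0]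
        have h4 : (-2 : ℝ) + k = k - 2 := by ring
        rw [h4]
        exact Real.rpow_le_rpow hA0.le h.le (by linarith)
      calc ‖gK K (k : ℂ)‖ * (X / (Ideal.absNorm J.1 : ℝ)) ^ k
          ≤ G k * (B ^ k * (Ideal.absNorm J.1 : ℝ) ^ (-2 : ℝ)) :=
            mul_le_mul h1 h2 (by positivity) (hG0 k).le
        _ = _ := by ring
  have hmain := main_ineq K ι M hreps X hXD b hbs
  -- the sum of the bounds
  have hsumb : ∑' J : NZI K, ENNReal.ofReal (b J) ≤
      ENNReal.ofReal (G d * X ^ d * N + G k * B ^ k * |Z|) := by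
    have h1 : ∀ J : NZI K, ENNReal.ofReal (b J) =
        ENNReal.ofReal (G d * X ^ d) * (if (Ideal.absNorm J.1 : ℝ) ≤ A then (1 : ℝ≥0∞) else 0) +
          ENNReal.ofReal (G k * B ^ k) * ENNReal.ofReal ((Ideal.absNorm J.1 : ℝ) ^ (-2 : ℝ)) := by
      intro J
      have g1 := hG0 d
      have g2 := hG0 k
      simp only [hb]
      rw [ENNReal.ofReal_add (by split_ifs <;> positivity) (by positivity),
        ENNReal.ofReal_mul (p := G d * X ^ d) (by positivity),
        ENNReal.ofReal_mul (p := G k * B ^ k) (by positivity)]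
      congr 2
      split_ifs <;> simp
    simp_rw [h1]
    rw [ENNReal.tsum_add, ENNReal.tsum_mul_left, ENNReal.tsum_mul_left, hcnt]
    have h2 : ∑' J : NZI K, ENNReal.ofReal ((Ideal.absNorm J.1 : ℝ) ^ (-2 : ℝ)) ≤
        ENNReal.ofReal |Z| := by
      rw [← ENNReal.ofReal_tsum_of_nonneg (fun _ => by positivity)
        (Pool.Agent.H77.GLA.summable_real K 2 (by norm_num))]
      apply ENNReal.ofReal_le_ofReal
      exact (hZ K hK).trans (le_abs_self Z)
    have g1 := hG0 d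
    have g2 := hG0 k
    rw [ENNReal.ofReal_add (by positivity) (by positivity),
      ENNReal.ofReal_mul (p := G d * X ^ d) (by positivity),
      ENNReal.ofReal_mul (p := G k * B ^ k) (by positivity)]
    gcongr
  have hreal : (classNumber K : ℝ) * (regulator K * (X / (2 * Real.exp 1 * D))) ≤
      torsionOrder K * (G d * X ^ d * N + G k * B ^ k * |Z|) := by
    have g1 := hG0 d
    have g2 := hG0 k
    have h1 : ENNReal.ofReal ((classNumber K : ℝ) * (regulator K * (X / (2 * Real.exp 1 * D)))) ≤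
        ENNReal.ofReal (torsionOrder K * (G d * X ^ d * N + G k * B ^ k * |Z|)) := by
      rw [ENNReal.ofReal_mul (p := (torsionOrder K : ℝ)) (by positivity), ENNReal.ofReal_natCast]
      exact hmain.trans (mul_le_mul_right hsumb _)
    exact (ENNReal.ofReal_le_ofReal_iff (by positivity)).1 h1
  have htor : (torsionOrder K : ℝ) ≤ W := by
    rw [hW]
    exact_mod_cast Pool.Agent.H26.MV.torsion_bound n K hK
  have hXd : 1 ≤ X ^ d := Real.one_le_rpow hX1 hd0.le
  have g1 := hG0 d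
  have g2 := hG0 k
  set hR : ℝ := classNumber K * regulator K with hhR
  have hhR0 : 0 ≤ hR := by
    rw [hhR]
    have := (regulator_pos K).le
    positivity
  have e1 : hR * (A ^ (1 - ε / 2) / D) ≤ W * (G d + G k * B ^ k * |Z|) * (X ^ d * N) := by
    have h1 : hR * (A ^ (1 - ε / 2) / D) =
        (classNumber K : ℝ) * (regulator K * (X / (2 * Real.exp 1 * D))) := by
      rw [← hB, hX, hhR]
      field_simp
    rw [h1]
    refine hreal.trans ?_
    have h2 : G d * X ^ d * N + G k * B ^ k * |Z| ≤ (G d + G k * B ^ k * |Z|) * (X ^ d * N) := by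
      have h3 : 1 ≤ X ^ d * N := by nlinarith
      have h4 : G k * B ^ k * |Z| ≤ G k * B ^ k * |Z| * (X ^ d * N) :=
        le_mul_of_one_le_right (by positivity) h3
      nlinarith
    calc (torsionOrder K : ℝ) * (G d * X ^ d * N + G k * B ^ k * |Z|)
        ≤ W * ((G d + G k * B ^ k * |Z|) * (X ^ d * N)) :=
          mul_le_mul htor h2 (by positivity) hW0.le
      _ = _ := by ring
  have e2 : X ^ d = B ^ d * A ^ ((1 - ε / 2) * d) := by
    rw [hX, Real.mul_rpow hB0.le (by positivity), ← Real.rpow_mul hA0.le]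
  have e3 : A ^ (1 - ε) * A ^ ((1 - ε / 2) * d) ≤ A ^ (1 - ε / 2) := by
    rw [← Real.rpow_add hA0]
    apply Real.rpow_le_rpow_of_exponent_le hA1
    rw [hd]
    nlinarith
  have hAp : 0 < A ^ ((1 - ε / 2) * d) := by positivity
  have e4 : A ^ (1 - ε) * hR / D * A ^ ((1 - ε / 2) * d) ≤
      Q * N * A ^ ((1 - ε / 2) * d) := by
    calc A ^ (1 - ε) * hR / D * A ^ ((1 - ε / 2) * d)
        = hR * ((A ^ (1 - ε) * A ^ ((1 - ε / 2) * d)) / D) := by ring
      _ ≤ hR * (A ^ (1 - ε / 2) / D) := by gcongr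
      _ ≤ W * (G d + G k * B ^ k * |Z|) * (X ^ d * N) := e1
      _ = _ := by
          rw [e2, hQ]
          ring
  have e5 := le_of_mul_le_mul_right e4 hAp
  rw [inv_mul_le_iff₀ hQ0]
  exact e5

end Pool.Agent.H86.BH
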